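import Pool.Agent.TH16.HS.Core2

set_option autoImplicit false

namespace Pool.Agent.TH16.HS

variable {L : Type} [Field L]

theorem chb {th g rho c q V U W Y Vd Ud Wd Z : L} (h2 : (2 : L) ≠ 0) (hth : th ^ 2 = 3)
    (hg : g ≠ 0)
    (hc : c = 1 - q + rho ^ 2)
    (h3 : Y + th * W = g * (V - U) + rho * (V + U - th * Y - W))
    (h4 : 4 * W = -2 * g * rho * (V - U) - c * (V + U - th * Y - W))
    (D1 : g * (Z - th * Wd) = (Vd - Ud) + g * (rho + th) * (Vd + Ud + th * Z - Wd))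
    (D2 : 4 * g * Wd = -2 * (th + rho) * (Vd - Ud)
      - g * ((rho + th) ^ 2 + q) * (Vd + Ud + th * Z - Wd)) :
    Y * Wd - W * Z - 2 * (V * Z - Y * Vd) - 2 * (U * Z - Y * Ud) - th * (V * Ud + U * Vd)
      - 2 * th * (V * Vd + U * Ud) =
    -g * (V - U) * (Vd + Ud + th * Z - Wd) + (V + U - th * Y - W) * (Vd - Ud) / g := by
  obtain ⟨hV, hU, hY⟩ := coef hth h3 h4
  have Q1 : 2 * g * (2 + th * rho) * (Wd + 2 * Vd + 2 * Ud) + (-2 * g * rho) * (-Z)
      + 2 * (1 + g * (th + rho)) * (-2 * Z - th * Ud - 2 * th * Vd)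
      + 2 * (-1 + g * (th + rho)) * (-2 * Z - th * Vd - 2 * th * Ud) =
      -4 * g * (Vd + Ud + th * Z - Wd) := by
    linear_combination 2 * th * D1 + (2 * g * th * Z + 2 * g * rho * Z - 4 * g * (Vd + Ud)) * hth
  have Q2 : g * ((4 * rho + th * c) * (Wd + 2 * Vd + 2 * Ud) + (-c) * (-Z)
      + (2 + 2 * th * rho + c) * (-2 * Z - th * Ud - 2 * th * Vd)
      + (2 + 2 * th * rho + c) * (-2 * Z - th * Vd - 2 * th * Ud)) =
      4 * (Vd - Ud) := by
    subst hc
    linear_combination (10 + 2 * th * rho) * D1 + th * D2 + (2 * g * rho * Wd - 6 * g * rho * (Vd + Ud) + g * rho ^ 2 * Z + g * th * Wd - g * th * (Vd + Ud) - g * q * Z - g * (th ^ 2 - 7) * Z - 2 * (Vd - Ud)) * hth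
  have h4' : (4 : L) ≠ 0 := by
    intro h
    apply h2
    have : (2 : L) * 2 = 0 := by linear_combination h
    rcases mul_eq_zero.1 this with h | h <;> exact h
  have key : 4 * (g * (Y * Wd - W * Z - 2 * (V * Z - Y * Vd) - 2 * (U * Z - Y * Ud)
      - th * (V * Ud + U * Vd) - 2 * th * (V * Vd + U * Ud))) =
      4 * (-g * g * (V - U) * (Vd + Ud + th * Z - Wd) + (V + U - th * Y - W) * (Vd - Ud)) := by
    linear_combination g * (Wd + 2 * Vd + 2 * Ud) * hY + g * (-Z) * h4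
      + g * (-2 * Z - th * Ud - 2 * th * Vd) * hV + g * (-2 * Z - th * Vd - 2 * th * Ud) * hU
      + g * (V - U) * Q1 + (V + U - th * Y - W) * Q2
  have key2 := mul_left_cancel₀ h4' key
  rw [eq_comm, ← sub_eq_zero]
  field_simp
  linear_combination -key2

end Pool.Agent.TH16.HS
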