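import Mathlib.Algebra.Field.Basic
import Mathlib.Tactic.FieldSimp
import Mathlib.Tactic.LinearCombination
import Mathlib.Tactic.Ring

set_option autoImplicit false

namespace Pool.Agent.TH16.HS

variable {L : Type} [Field L]

/-- coordinates of a point of the line in terms of `l1, l2` -/
theorem coef {th g rho c V U W Y : L} (hth : th ^ 2 = 3)
    (h3 : Y + th * W = g * (V - U) + rho * (V + U - th * Y - W))
    (h4 : 4 * W = -2 * g * rho * (V - U) - c * (V + U - th * Y - W)) :
    4 * V = 2 * (1 + g * (th + rho)) * (V - U) + (2 + 2 * th * rho + c) * (V + U - th * Y - W) ∧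
    4 * U = 2 * (-1 + g * (th + rho)) * (V - U) + (2 + 2 * th * rho + c) * (V + U - th * Y - W) ∧
    4 * Y = 2 * g * (2 + th * rho) * (V - U) + (4 * rho + th * c) * (V + U - th * Y - W) := by
  refine ⟨?_, ?_, ?_⟩
  · linear_combination (2 * th) * h3 - h4 - 2 * W * hth
  · linear_combination (2 * th) * h3 - h4 - 2 * W * hth
  · linear_combination 4 * h3 - th * h4

end Pool.Agent.TH16.HS
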