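import Pool.Agent.TH16.HS.Core


set_option autoImplicit false

namespace Pool.Agent.TH16.HS

variable {L : Type} [Field L]

/-- the two relations of the dual line -/
theorem dual {th g rho c q X0 X1 X2 Y1 Y2 Vd Ud Wd Z : L} (h2 : (2 : L) ≠ 0) (hth : th ^ 2 = 3)
    (hc : c = 1 - q + rho ^ 2)
    (hΔ : (X0 - X2) * (-Y1 - th * X0 - Y2) - (X0 + X2 - X1) * Y1 ≠ 0)
    (a3 : th * X1 = g * (X0 - X2) + rho * (X0 + X2 - X1))
    (a4 : 4 * X1 = -2 * g * rho * (X0 - X2) - c * (X0 + X2 - X1))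
    (b3 : X0 + th * Y2 = g * Y1 + rho * (-Y1 - th * X0 - Y2))
    (b4 : 4 * Y2 = -2 * g * rho * Y1 - c * (-Y1 - th * X0 - Y2))
    (pa : X0 * Vd + X2 * Ud + X1 * Wd = 0) (pb : -Y1 * Ud + Y2 * Wd + X0 * Z = 0) :
    g * (Z - th * Wd) = (Vd - Ud) + g * (rho + th) * (Vd + Ud + th * Z - Wd) ∧
    4 * g * Wd = -2 * (th + rho) * (Vd - Ud)
      - g * ((rho + th) ^ 2 + q) * (Vd + Ud + th * Z - Wd) := by
  obtain ⟨aV, aU, aY⟩ := coef (V := X0) (U := X2) (W := X1) (Y := 0) (g := g) (rho := rho) (c := c)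
    hth (by linear_combination a3) (by linear_combination a4)
  obtain ⟨bV, bU, bY⟩ := coef (V := 0) (U := -Y1) (W := Y2) (Y := X0) (g := g) (rho := rho) (c := c)
    hth (by linear_combination b3) (by linear_combination b4)
  have F1 : ((X0 - X2) * (-Y1 - th * X0 - Y2) - (X0 + X2 - X1) * Y1) *
      (2 * (1 + g * (th + rho)) * Vd + 2 * (-1 + g * (th + rho)) * Ud - 2 * g * rho * Wd
        + 2 * g * (2 + th * rho) * Z) = 0 := by
    linear_combination (-Y1 - th * X0 - Y2) * (4 * pa - Vd * aV - Ud * aU - Wd * a4 - Z * aY)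
      - (X0 + X2 - X1) * (4 * pb - Vd * bV - Ud * bU - Wd * b4 - Z * bY)
  have F2 : ((X0 - X2) * (-Y1 - th * X0 - Y2) - (X0 + X2 - X1) * Y1) *
      ((2 + 2 * th * rho + c) * Vd + (2 + 2 * th * rho + c) * Ud - c * Wd
        + (4 * rho + th * c) * Z) = 0 := by
    linear_combination -Y1 * (4 * pa - Vd * aV - Ud * aU - Wd * a4 - Z * aY)
      + (X0 - X2) * (4 * pb - Vd * bV - Ud * bU - Wd * b4 - Z * bY)
  have E1 := (mul_eq_zero.1 F1).resolve_left hΔ
  have E2 := (mul_eq_zero.1 F2).resolve_left hΔ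
  have E1' : (Vd - Ud) + g * ((th + rho) * (Vd + Ud) - rho * Wd + (2 + th * rho) * Z) = 0 := by
    have : (2 : L) * ((Vd - Ud) + g * ((th + rho) * (Vd + Ud) - rho * Wd + (2 + th * rho) * Z)) = 0 := by
      linear_combination E1
    exact (mul_eq_zero.1 this).resolve_left h2
  have D1 : g * (Z - th * Wd) = (Vd - Ud) + g * (rho + th) * (Vd + Ud + th * Z - Wd) := by
    linear_combination -E1' - g * Z * hth
  refine ⟨D1, ?_⟩
  subst hc
  linear_combination (-g) * E2 - 2 * (th + rho) * D1 - g * (Wd + th * Z + 2 * rho * Z + Vd + Ud) * hth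

end Pool.Agent.TH16.HS
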