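import Pool.Agent.TH16.HS.Core2

set_option autoImplicit false

namespace Pool.Agent.TH16.HS

variable {L : Type} [Field L]

theorem I1 {th g rho q Vd Ud Wd Z : L} (hth : th ^ 2 = 3) (hq : q * (1 + g ^ 2) = 1)
    (D1 : g * (Z - th * Wd) = (Vd - Ud) + g * (rho + th) * (Vd + Ud + th * Z - Wd))
    (D2 : 4 * g * Wd = -2 * (th + rho) * (Vd - Ud)
      - g * ((rho + th) ^ 2 + q) * (Vd + Ud + th * Z - Wd)) :
    4 * g * ((2 * ((1 + g ^ 2) * (4 * rho + th * (1 - q + rho ^ 2)) - 2 * g * (2 + th * rho)) +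
        th * (2 * (1 + g * (th + rho)) - (2 + 2 * th * rho + (1 - q + rho ^ 2)) * (1 + g ^ 2))) * Vd +
      (th * ((1 + g ^ 2) * (4 * rho + th * (1 - q + rho ^ 2)) - 2 * g * (2 + th * rho)) +
        2 * (2 * (1 + g * (th + rho)) - (2 + 2 * th * rho + (1 - q + rho ^ 2)) * (1 + g ^ 2))) * Z) =
    -((-2 * g * rho) * (2 + 2 * th * rho + (1 - q + rho ^ 2))
        + (1 - q + rho ^ 2) * (2 * (-1 + g * (th + rho)))) *
      ((1 + g ^ 2) * (Vd - Ud) + g ^ 2 * (Vd + Ud + th * Z - Wd)) := by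
  linear_combination
    (4 * g ^ 2 + 4 * g ^ 2 * th * rho + 2 * (2 * g - 2 * g ^ 2 * th - 2 * (1 + g ^ 2) * rho) * (rho + th)
      + 2 * ((1 + rho ^ 2) * (1 + g ^ 2) - 1)) * D1
    + (2 * g - 2 * g ^ 2 * th - 2 * (1 + g ^ 2) * rho) * D2
    + (-2 * Ud + 2 * Vd + 8 * Z * g + 2 * Ud * g * rho + 2 * Ud * g * th + 2 * Vd * g * rho
      - 6 * Vd * g * th - 2 * Wd * g * rho + 2 * Z * g * rho * th - 4 * Z * g * th ^ 2) * hq
    + (-2 * Ud * g * rho + 2 * Ud * g ^ 2 - 10 * Vd * g * rho + 10 * Vd * g ^ 2 - 2 * Wd * g * rho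
      + 2 * Wd * g ^ 2 - 2 * Z * g * rho * th + 2 * Z * g * rho ^ 2 - 4 * Z * g ^ 2 * rho
      + 2 * Z * g ^ 2 * th + 10 * Z * g ^ 3 - 2 * Ud * g ^ 3 * rho - 2 * Ud * g ^ 3 * th
      - 10 * Vd * g ^ 3 * rho - 2 * Vd * g ^ 3 * th - 2 * Wd * g ^ 3 * rho - 2 * Wd * g ^ 3 * th
      - 2 * Z * g ^ 3 * rho * th + 2 * Z * g ^ 3 * rho ^ 2 - 2 * Z * g ^ 3 * th ^ 2) * hth

theorem hatAux {th g be X0 Y0 mu eta R S O D M Vd Z : L}
    (i1 : 4 * g * ((2 * R + th * S) * Vd + (th * R + 2 * S) * Z) = -O * M)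
    (e1 : 8 * be * X0 * X0 * mu = R * D) (e2 : 8 * be * X0 * X0 * eta = S * D)
    (e3 : 16 * X0 * Y0 = O * D) :
    (16 * X0) * (2 * be * g * X0 * ((2 * mu + th * eta) * Vd + (th * mu + 2 * eta) * Z)) =
      (16 * X0) * (-Y0 * M) := by
  linear_combination (4 * g * (2 * Vd + th * Z)) * e1 + (4 * g * (th * Vd + 2 * Z)) * e2
      + M * e3 + D * i1

theorem hatS {th g rho q be X0 X1 X2 Y0 Y1 Y2 mu eta mu2 eta2 H Vd Ud Wd Z : L}
    (h2 : (2 : L) ≠ 0) (hth : th ^ 2 = 3) (hbe : be ≠ 0)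
    (hbg : be ^ 2 = 1 + g ^ 2) (hq : q * (1 + g ^ 2) = 1)
    (hX0 : X0 ≠ 0) (hY0 : Y0 ≠ 0) (hrel : X0 * Y0 + X1 * Y1 + X2 * Y2 = 0)
    (a3 : th * X1 = g * (X0 - X2) + rho * (X0 + X2 - X1))
    (a4 : 4 * X1 = -2 * g * rho * (X0 - X2) - (1 - q + rho ^ 2) * (X0 + X2 - X1))
    (b3 : X0 + th * Y2 = g * Y1 + rho * (-Y1 - th * X0 - Y2))
    (b4 : 4 * Y2 = -2 * g * rho * Y1 - (1 - q + rho ^ 2) * (-Y1 - th * X0 - Y2))
    (a1 : mu * X0 - H * (mu2 * X2) = be * (X0 - X2))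
    (a2 : mu * X0 + H * (mu2 * X2) = (X0 + X2 - X1) / be)
    (b1 : eta * X0 - H * (-mu2 * Y1 + eta2 * X0) = be * Y1)
    (b2 : eta * X0 + H * (-mu2 * Y1 + eta2 * X0) = (-Y1 - th * X0 - Y2) / be)
    (D1 : g * (Z - th * Wd) = (Vd - Ud) + g * (rho + th) * (Vd + Ud + th * Z - Wd))
    (D2 : 4 * g * Wd = -2 * (th + rho) * (Vd - Ud)
      - g * ((rho + th) ^ 2 + q) * (Vd + Ud + th * Z - Wd)) :
    2 * be * g * ((2 * mu + th * eta) * (X0 / Y0) * Vd + (th * mu + 2 * eta) * (X0 / Y0) * Z) =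
      -((1 + g ^ 2) * (Vd - Ud) + g ^ 2 * (Vd + Ud + th * Z - Wd)) := by
  obtain ⟨aV, aU, aY⟩ := coef (V := X0) (U := X2) (W := X1) (Y := 0) (g := g) (rho := rho)
    (c := 1 - q + rho ^ 2) hth (by linear_combination a3) (by linear_combination a4)
  obtain ⟨bV, bU, bY⟩ := coef (V := 0) (U := -Y1) (W := Y2) (Y := X0) (g := g) (rho := rho)
    (c := 1 - q + rho ^ 2) hth (by linear_combination b3) (by linear_combination b4)
  rw [eq_div_iff hbe] at a2 b2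
  have ra : 2 * be * (mu * X0) = (1 + g ^ 2) * (X0 - X2) + (X0 + X2 - X1) := by
    linear_combination be * a1 + a2 + (X0 - X2) * hbg
  have rb : 2 * be * (eta * X0) = (1 + g ^ 2) * Y1 + (-Y1 - th * X0 - Y2) := by
    linear_combination be * b1 + b2 + Y1 * hbg
  have e1 : 8 * be * X0 * X0 * mu =
      ((1 + g ^ 2) * (4 * rho + th * (1 - q + rho ^ 2)) - 2 * g * (2 + th * rho)) *
      ((X0 - X2) * (-Y1 - th * X0 - Y2) - (X0 + X2 - X1) * Y1) := by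
    linear_combination 4 * X0 * ra + ((1 + g ^ 2) * (X0 - X2) + (X0 + X2 - X1)) * bY
      - ((1 + g ^ 2) * Y1 + (-Y1 - th * X0 - Y2)) * aY
  have e2 : 8 * be * X0 * X0 * eta =
      (2 * (1 + g * (th + rho)) - (2 + 2 * th * rho + (1 - q + rho ^ 2)) * (1 + g ^ 2)) *
      ((X0 - X2) * (-Y1 - th * X0 - Y2) - (X0 + X2 - X1) * Y1) := by
    linear_combination 4 * X0 * rb + ((1 + g ^ 2) * Y1 + (-Y1 - th * X0 - Y2)) * aV
      - ((1 + g ^ 2) * (X0 - X2) + (X0 + X2 - X1)) * bV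
  have e3 : 16 * X0 * Y0 = ((-2 * g * rho) * (2 + 2 * th * rho + (1 - q + rho ^ 2))
        + (1 - q + rho ^ 2) * (2 * (-1 + g * (th + rho)))) *
      ((X0 - X2) * (-Y1 - th * X0 - Y2) - (X0 + X2 - X1) * Y1) := by
    linear_combination 16 * hrel + (4 * (-Y1)) * a4 - (4 * X2) * b4
      + (-2 * g * rho * (X0 - X2) - (1 - q + rho ^ 2) * (X0 + X2 - X1)) * bU
      - (-2 * g * rho * Y1 - (1 - q + rho ^ 2) * (-Y1 - th * X0 - Y2)) * aU
  have i1 := I1 hth hq D1 D2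
  have h16 : (16 : L) ≠ 0 := by
    intro h
    have : (2 : L) ^ 4 = 0 := by linear_combination h
    exact h2 (pow_eq_zero_iff (by norm_num) |>.1 this)
  have key : (16 * X0) * (2 * be * g * X0 * ((2 * mu + th * eta) * Vd + (th * mu + 2 * eta) * Z)) =
      (16 * X0) * (-Y0 * ((1 + g ^ 2) * (Vd - Ud) + g ^ 2 * (Vd + Ud + th * Z - Wd))) :=
    hatAux i1 e1 e2 e3
  have key2 := mul_left_cancel₀ (mul_ne_zero h16 hX0) key
  have : Y0 * (2 * be * g * ((2 * mu + th * eta) * (X0 / Y0) * Vd + (th * mu + 2 * eta) * (X0 / Y0) * Z)) =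
      Y0 * (-((1 + g ^ 2) * (Vd - Ud) + g ^ 2 * (Vd + Ud + th * Z - Wd))) := by
    field_simp
    linear_combination key2
  exact mul_left_cancel₀ hY0 this

end Pool.Agent.TH16.HS
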