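import Pool.Agent.TH614.HS.Defs
import Pool.Agent.TH16.HS.HatCore
import Pool.Agent.TH16.HS.ChbCore

set_option autoImplicit false

namespace Pool.Agent.TH16.HS

open Pool.Agent.TH614.HS

variable {L : Type} [Field L]

/-- data of the line at three points, in scaled coordinates -/
structure Sc (th g rho q be H mu eta mu2 eta2 X0 X1 X2 Y0 Y1 Y2 : L) : Prop where
  rel : X0 * Y0 + X1 * Y1 + X2 * Y2 = 0
  delta : (X0 - X2) * (-Y1 - th * X0 - Y2) - (X0 + X2 - X1) * Y1 ≠ 0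
  a3 : th * X1 = g * (X0 - X2) + rho * (X0 + X2 - X1)
  a4 : 4 * X1 = -2 * g * rho * (X0 - X2) - (1 - q + rho ^ 2) * (X0 + X2 - X1)
  b3 : X0 + th * Y2 = g * Y1 + rho * (-Y1 - th * X0 - Y2)
  b4 : 4 * Y2 = -2 * g * rho * Y1 - (1 - q + rho ^ 2) * (-Y1 - th * X0 - Y2)
  a1 : mu * X0 - H * (mu2 * X2) = be * (X0 - X2)
  a2 : mu * X0 + H * (mu2 * X2) = (X0 + X2 - X1) / be
  b1 : eta * X0 - H * (-mu2 * Y1 + eta2 * X0) = be * Y1
  b2 : eta * X0 + H * (-mu2 * Y1 + eta2 * X0) = (-Y1 - th * X0 - Y2) / be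
  c1 : (mu * Y1 + eta * X2) - H * (eta2 * X2) = be * Y1
  c2 : (mu * Y1 + eta * X2) + H * (eta2 * X2) = (Y1 - th * X2 + Y0) / be
  c3 : X2 - th * Y0 = g * Y1 + rho * (Y1 - th * X2 + Y0)
  c4 : -4 * Y0 = -2 * g * rho * Y1 - (1 - q + rho ^ 2) * (Y1 - th * X2 + Y0)

theorem sc_of {th x0 x1 x2 y0 y1 y2 s t mu eta mu2 eta2 H be g rho : L}
    (hPL : PL x0 x1 x2 y0 y1 y2) (hs : s ≠ 0) (ht : t ≠ 0)
    (hU : ChU th x0 x1 x2 y0 y1 y2 s t mu eta mu2 eta2 H be g rho) :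
    Sc th g rho (1 / (1 + g ^ 2)) be H mu eta mu2 eta2 (s * x0) (x1 / (s * t)) (t * x2)
      (y0 / s) (s * t * y1) (y2 / t) := by
  obtain ⟨hx0, hx1, hx2, hy0, hy1, hy2, hrel⟩ := hPL
  obtain ⟨-, hbe, hg, hbg, hind, hall⟩ := hU
  have hg1 : (1 + g ^ 2) ≠ 0 := by rw [← hbg]; exact pow_ne_zero 2 hbe
  have hq : g ^ 2 / (1 + g ^ 2) = 1 - 1 / (1 + g ^ 2) := by field_simp; ring
  obtain ⟨a1, a2, a3, a4⟩ := hall x0 x1 x2 0 ⟨by ring, by ring, by ring⟩
  obtain ⟨b1, b2, b3, b4⟩ := hall 0 (s * y2) (-(s * y1)) (s * x0)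
    ⟨by linear_combination (-s) * hrel, by ring, by ring⟩
  obtain ⟨c1, c2, c3, c4⟩ := hall (t * y1) (-(t * y0)) 0 (t * x2)
    ⟨by ring, by ring, by linear_combination (-t) * hrel⟩
  simp only [l1, l2, hq] at a1 a2 a3 a4 b1 b2 b3 b4 c1 c2 c3 c4
  have hy2' : (s * y2) / (s * t) = y2 / t := by field_simp
  have hy0' : (-(t * y0)) / (s * t) = -(y0 / s) := by field_simp
  rw [hy2'] at b2 b3 b4
  rw [hy0'] at c2 c3 c4
  refine ⟨?_, ?_, ?_, ?_, ?_, ?_, ?_, ?_, ?_, ?_, ?_, ?_, ?_, ?_⟩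
  · field_simp; linear_combination hrel
  · -- independence
    intro hΔ
    have h := hind (-(s * t * y1) - th * (s * x0) - y2 / t) (-(s * t * y1)) ?_
    · exact mul_ne_zero (mul_ne_zero hs ht) hy1 (neg_eq_zero.1 h.2)
    · intro P0 P1 P2 Y hP
      obtain ⟨p1, p2, p3⟩ := hP
      have e1 : P1 = (x1 * P0 + Y * y2) / x0 := by
        rw [eq_div_iff hx0]; linear_combination p3
      have e2 : P2 = (x2 * P0 - Y * y1) / x0 := by
        rw [eq_div_iff hx0]; linear_combination -p2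
      have hmul : (s * x0) * ((-(s * t * y1) - th * (s * x0) - y2 / t) * (s * P0 - t * P2)
          + (-(s * t * y1)) * (s * P0 + t * P2 - th * Y - P1 / (s * t))) =
          (s * P0) * ((s * x0 - t * x2) * (-(s * t * y1) - th * (s * x0) - y2 / t)
            - (s * x0 + t * x2 - x1 / (s * t)) * (s * t * y1)) := by
        rw [e1, e2]
        field_simp
        ring
      rw [hΔ, mul_zero] at hmul
      simpa only [l1, l2] using (mul_eq_zero.1 hmul).resolve_left (mul_ne_zero hs hx0)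
  · linear_combination a3
  · linear_combination a4
  · linear_combination b3
  · linear_combination b4
  · linear_combination a1
  · linear_combination a2
  · linear_combination b1
  · linear_combination b2
  · linear_combination c1
  · linear_combination c2
  · linear_combination c3
  · linear_combination c4

/-- relations of a dual point -/
theorem dual_of {th x0 x1 x2 y0 y1 y2 s t mu eta mu2 eta2 H be g rho R0 R1 R2 Z : L}
    (h2 : (2 : L) ≠ 0) (hth : th ^ 2 = 3)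
    (hPL : PL x0 x1 x2 y0 y1 y2) (hs : s ≠ 0) (ht : t ≠ 0)
    (hU : ChU th x0 x1 x2 y0 y1 y2 s t mu eta mu2 eta2 H be g rho)
    (hR : OnL y0 y1 y2 x0 x1 x2 R0 R1 R2 Z) :
    g * (Z - th * (s * t * R1)) = (R0 / s - R2 / t)
      + g * (rho + th) * (R0 / s + R2 / t + th * Z - s * t * R1) ∧
    4 * g * (s * t * R1) = -2 * (th + rho) * (R0 / s - R2 / t)
      - g * ((rho + th) ^ 2 + 1 / (1 + g ^ 2)) * (R0 / s + R2 / t + th * Z - s * t * R1) := by
  have S := sc_of hPL hs ht hU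
  obtain ⟨hx0, hx1, hx2, hy0, hy1, hy2, hrel⟩ := hPL
  obtain ⟨r1, r2, r3⟩ := hR
  refine dual h2 hth rfl S.delta S.a3 S.a4 S.b3 S.b4 ?_ ?_
  · have h : y0 * (x0 * R0 + x1 * R1 + x2 * R2) = 0 := by
      linear_combination R0 * hrel + x1 * r3 - x2 * r2
    have h' := (mul_eq_zero.1 h).resolve_left hy0
    field_simp
    linear_combination h'
  · field_simp
    linear_combination -s * r1

theorem CH4 : S_CH4 := by
  intro L _ th x0 x1 x2 y0 y1 y2 s t mu eta mu2 eta2 H be g rho h2 hth hPL hs ht hU _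
  intro P0 P1 P2 Y R0 R1 R2 Z hP hR
  obtain ⟨D1, D2⟩ := dual_of h2 hth hPL hs ht hU hR
  obtain ⟨-, hbe, hg, hbg, -, hall⟩ := hU
  obtain ⟨-, -, h3, h4⟩ := hall P0 P1 P2 Y hP
  have hg1 : (1 + g ^ 2) ≠ 0 := by rw [← hbg]; exact pow_ne_zero 2 hbe
  have hq : g ^ 2 / (1 + g ^ 2) + rho ^ 2 = 1 - 1 / (1 + g ^ 2) + rho ^ 2 := by
    field_simp; ring
  simp only [l1, l2] at h3 h4
  have h := chb h2 hth hg hq h3 h4 D1 D2
  simp only [Bq, l1, l2, m1, m2]
  rw [show s * t * Y * R1 - Z * P1 / (s * t) - 2 * (s * P0 * Z - R0 * Y / s)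
      - 2 * (t * P2 * Z - R2 * Y / t) - th * (s / t * P0 * R2 + t / s * P2 * R0)
      - 2 * th * (P0 * R0 + P2 * R2) =
      Y * (s * t * R1) - (P1 / (s * t)) * Z - 2 * ((s * P0) * Z - Y * (R0 / s))
      - 2 * ((t * P2) * Z - Y * (R2 / t)) - th * ((s * P0) * (R2 / t) + (t * P2) * (R0 / s))
      - 2 * th * ((s * P0) * (R0 / s) + (t * P2) * (R2 / t)) by field_simp]
  rw [h]

theorem CH3 : S_CH3 := by
  intro L _ th x0 x1 x2 y0 y1 y2 s t mu eta mu2 eta2 H be g rho h2 hth hPL hs ht hU _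
  intro R0 R1 R2 Z hR
  obtain ⟨D1, D2⟩ := dual_of h2 hth hPL hs ht hU hR
  have S := sc_of hPL hs ht hU
  obtain ⟨hx0, hx1, hx2, hy0, hy1, hy2, hrel⟩ := hPL
  obtain ⟨-, hbe, hg, hbg, -, -⟩ := hU
  have hg1 : (1 + g ^ 2) ≠ 0 := by rw [← hbg]; exact pow_ne_zero 2 hbe
  have hq : 1 / (1 + g ^ 2) * (1 + g ^ 2) = 1 := by field_simp
  have hq' : 1 / (1 + g ^ 2) * (1 + (-g) ^ 2) = 1 := by
    rw [show (-g) ^ 2 = g ^ 2 by ring]; exact hq
  have s1 := hatS h2 hth hbe hbg hq (mul_ne_zero hs hx0) (div_ne_zero hy0 hs) S.rel S.a3 S.a4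
    S.b3 S.b4 S.a1 S.a2 S.b1 S.b2 D1 D2
  have s2 := hatS (th := th) (g := -g) (rho := rho) (q := 1 / (1 + g ^ 2)) (be := be)
    (X0 := t * x2) (X1 := x1 / (s * t)) (X2 := s * x0) (Y0 := -(y2 / t)) (Y1 := -(s * t * y1))
    (Y2 := -(y0 / s)) (mu := H * mu2) (eta := H * eta2) (mu2 := mu) (eta2 := eta) (H := 1)
    (Vd := R2 / t) (Ud := R0 / s) (Wd := s * t * R1) (Z := Z)
    h2 hth hbe (by rw [hbg]; ring) hq' (mul_ne_zero ht hx2)
    (neg_ne_zero.2 (div_ne_zero hy2 ht)) (by linear_combination -S.rel)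
    (by linear_combination S.a3) (by linear_combination S.a4)
    (by linear_combination S.c3) (by linear_combination S.c4)
    (by linear_combination -S.a1)
    (by linear_combination S.a2)
    (by linear_combination -S.c1) (by linear_combination S.c2)
    (by linear_combination -D1) (by linear_combination -D2)
  simp only [hat, m1, m2]
  rw [show s * x0 / (y0 / s) = s ^ 2 * x0 / y0 by field_simp] at s1
  rw [show t * x2 / (-(y2 / t)) = -(t ^ 2 * x2 / y2) by field_simp] at s2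
  generalize s ^ 2 * x0 / y0 = K1 at s1 ⊢
  generalize t ^ 2 * x2 / y2 = K2 at s2 ⊢
  generalize R0 / s = V at s1 s2 ⊢
  generalize R2 / t = U at s1 s2 ⊢
  have hne : 2 * be * g ≠ 0 := mul_ne_zero (mul_ne_zero h2 hbe) hg
  constructor
  · apply mul_left_cancel₀ hne
    have : 2 * be * g * (-(be / g) * (V - U)) = -2 * be ^ 2 * (V - U) := by field_simp
    rw [this]
    linear_combination s1 - s2 + 2 * (V - U) * hbg
  · apply mul_left_cancel₀ hne
    have : 2 * be * g * (-(g / be) * (V + U + th * Z - s * t * R1)) =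
        -2 * g ^ 2 * (V + U + th * Z - s * t * R1) := by field_simp
    rw [this]
    linear_combination s1 + s2

end Pool.Agent.TH16.HS
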